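import Mathlib

/-!
# An uncountable abelian group maps onto a direct sum of uncountably many copies of a countable
nontrivial group
-/

set_option autoImplicit false

open TensorProduct

namespace Pool.Agent.Work.MP_7406cc_gt.Alg

/-- The conclusion, for short. -/
def Concl (X : Type) [AddCommGroup X] : Prop :=
  ∃ (Z : Type) (_ : AddCommGroup Z) (_ : Countable Z) (_ : Nontrivial Z)
    (J : Type) (_ : Uncountable J) (π : X →+ (J →₀ Z)), Function.Surjective π

lemma Concl.of_surjective {X Y : Type} [AddCommGroup X] [AddCommGroup Y] (f : X →+ Y)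
    (hf : Function.Surjective f) (h : Concl Y) : Concl X := by
  obtain ⟨Z, i1, i2, i3, J, i4, π, hπ⟩ := h
  exact ⟨Z, i1, i2, i3, J, i4, π.comp f, hπ.comp hf⟩

lemma countable_of_subgroup {G : Type} [AddCommGroup G] (s : AddSubgroup G) (h1 : Countable s)
    (h2 : Countable (G ⧸ s)) : Countable G :=
  (AddSubgroup.addGroupEquivQuotientProdAddSubgroup (s := s)).countable_iff.2 inferInstance

lemma countable_of_hom {G H : Type} [AddCommGroup G] [AddCommGroup H] (f : G →+ H)
    (hH : Countable H) (hk : Countable f.ker) : Countable G := by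
  apply countable_of_subgroup f.ker hk
  exact (QuotientAddGroup.kerLift_injective f).countable

/-- A vector space with countable index set of a basis is countable. -/
lemma uncountable_index {k W J : Type} [Field k] [Countable k] [AddCommGroup W] [Module k W]
    (b : Module.Basis J k W) [Uncountable W] : Uncountable J := by
  by_contra h
  rw [not_uncountable_iff] at h
  have h1 : Countable (J →₀ k) := inferInstance
  have h2 : Countable W := b.repr.toEquiv.countable_iff.2 h1
  exact not_countable h2

lemma concl_of_module (k W : Type) [Field k] [Countable k] [AddCommGroup W] [Module k W]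
    [Uncountable W] : Concl W := by
  let b := Module.Basis.ofVectorSpace k W
  exact ⟨k, inferInstance, inferInstance, inferInstance, _, uncountable_index b,
    b.repr.toLinearMap.toAddMonoidHom, b.repr.surjective⟩

lemma exists_basis_fun (k W : Type) [Field k] [Countable k] [AddCommGroup W] [Module k W]
    [Uncountable W] : ∃ (J : Type) (_ : Uncountable J) (e : J → W) (r : W ≃+ (J →₀ k)),
      ∀ j, r (e j) = Finsupp.single j 1 := by
  let b := Module.Basis.ofVectorSpace k W
  exact ⟨_, uncountable_index b, b, b.repr.toAddEquiv, fun j => b.repr_self j⟩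

/-- First case. -/
lemma case_one (X : Type) [AddCommGroup X] (p : ℕ) [hp : Fact p.Prime]
    (h : Uncountable (X ⧸ (nsmulAddMonoidHom p : X →+ X).range)) : Concl X := by
  let _ : Module (ZMod p) (X ⧸ (nsmulAddMonoidHom p : X →+ X).range) :=
    AddCommGroup.zmodModule (n := p) (by
      intro x
      obtain ⟨y, rfl⟩ := QuotientAddGroup.mk_surjective x
      rw [← QuotientAddGroup.mk_nsmul, QuotientAddGroup.eq_zero_iff]
      exact ⟨y, rfl⟩)
  exact Concl.of_surjective (QuotientAddGroup.mk' (nsmulAddMonoidHom p : X →+ X).range)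
    (QuotientAddGroup.mk'_surjective _) (concl_of_module (ZMod p) _)

/-- Divisible group whose torsion is countable. -/
lemma case_free (V : Type) [AddCommGroup V] [Uncountable V]
    (hdiv : ∀ n : ℕ, n ≠ 0 → ∀ v : V, ∃ w, n • w = v)
    (hT : ∀ p : ℕ, p.Prime → Countable (nsmulAddMonoidHom p : V →+ V).ker) : Concl V := by
  -- `V[n]` is countable
  have hn : ∀ n : ℕ, n ≠ 0 → Countable (nsmulAddMonoidHom n : V →+ V).ker := by
    intro n
    induction n using Nat.recOnMul with
    | zero => intro h; exact absurd rfl h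
    | one =>
      intro _
      have : Subsingleton (nsmulAddMonoidHom 1 : V →+ V).ker := by
        constructor
        rintro ⟨a, ha⟩ ⟨b, hb⟩
        rw [AddMonoidHom.mem_ker, nsmulAddMonoidHom_apply, one_smul] at ha hb
        exact Subtype.ext (ha.trans hb.symm)
      infer_instance
    | prime p hp => intro _; exact hT p hp
    | mul a b iha ihb =>
      intro hab
      have ha : a ≠ 0 := left_ne_zero_of_mul hab
      have hb : b ≠ 0 := right_ne_zero_of_mul hab
      let f : (nsmulAddMonoidHom (a * b) : V →+ V).ker →+ (nsmulAddMonoidHom b : V →+ V).ker :=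
        { toFun := fun x => ⟨a • x.1, by
            have hx := x.2
            rw [AddMonoidHom.mem_ker, nsmulAddMonoidHom_apply] at hx ⊢
            rw [← mul_smul, mul_comm]
            exact hx⟩
          map_zero' := by ext; simp
          map_add' := fun x y => by ext; simp }
      apply countable_of_hom f (ihb hb)
      have := iha ha
      let g : f.ker → (nsmulAddMonoidHom a : V →+ V).ker := fun x => ⟨x.1.1, by
        have hx := x.2
        rw [AddMonoidHom.mem_ker] at hx ⊢
        exact congrArg Subtype.val hx⟩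
      have hg : Function.Injective g := by
        intro x y hxy
        apply Subtype.ext
        apply Subtype.ext
        exact congrArg (fun z : (nsmulAddMonoidHom a : V →+ V).ker => z.1) hxy
      exact hg.countable
  -- base change to the rationals
  let f : V →ₗ[ℤ] (ℚ ⊗[ℤ] V) := TensorProduct.mk ℤ ℚ V 1
  have hloc : IsLocalizedModule (nonZeroDivisors ℤ) f :=
    (isLocalizedModule_iff_isBaseChange (nonZeroDivisors ℤ) ℚ f).2
      (TensorProduct.isBaseChange ℤ V ℚ)
  have hf : Function.Surjective f := by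
    intro x
    induction x using TensorProduct.induction_on with
    | zero => exact ⟨0, map_zero _⟩
    | tmul q v =>
      obtain ⟨w, hw⟩ := hdiv q.den q.den_nz v
      refine ⟨q.num • w, ?_⟩
      change (1 : ℚ) ⊗ₜ[ℤ] (q.num • w) = q ⊗ₜ[ℤ] v
      rw [← hw, ← natCast_zsmul, ← TensorProduct.smul_tmul, ← TensorProduct.smul_tmul]
      congr 1
      rw [zsmul_eq_mul, zsmul_eq_mul, mul_one]
      have := q.num_div_den
      have h0 : (q.den : ℚ) ≠ 0 := by exact_mod_cast q.den_nz
      push_cast
      rw [mul_comm]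
      exact (Rat.mul_den_eq_num q).symm
    | add x y hx hy =>
      obtain ⟨a, rfl⟩ := hx
      obtain ⟨b, rfl⟩ := hy
      exact ⟨a + b, map_add _ _ _⟩
  have hk : Countable f.toAddMonoidHom.ker := by
    have h1 : (f.toAddMonoidHom.ker : Set V) ⊆
        ⋃ n : {n : ℕ // n ≠ 0}, ((nsmulAddMonoidHom n.1 : V →+ V).ker : Set V) := by
      intro v hv
      have hv' : f v = 0 := hv
      rw [IsLocalizedModule.eq_zero_iff (nonZeroDivisors ℤ) f] at hv'
      obtain ⟨c, hc⟩ := hv'
      rw [Set.mem_iUnion]
      have hc0 : (c : ℤ) ≠ 0 := nonZeroDivisors.ne_zero c.2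
      refine ⟨⟨(c : ℤ).natAbs, Int.natAbs_ne_zero.2 hc0⟩, ?_⟩
      change (c : ℤ).natAbs • v = 0
      have hc' : (c : ℤ) • v = 0 := hc
      rcases Int.natAbs_eq (c : ℤ) with h | h
      · rw [h, natCast_zsmul] at hc'
        exact hc'
      · rw [h, neg_smul, natCast_zsmul, neg_eq_zero] at hc'
        exact hc'
    have h2 : (⋃ n : {n : ℕ // n ≠ 0}, ((nsmulAddMonoidHom n.1 : V →+ V).ker : Set V)).Countable :=
      Set.countable_iUnion fun n => Set.countable_coe_iff.1 (hn n.1 n.2)
    exact Set.countable_coe_iff.2 (h2.mono h1)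
  have : Uncountable (ℚ ⊗[ℤ] V) := by
    by_contra h
    rw [not_uncountable_iff] at h
    exact not_countable (countable_of_hom f.toAddMonoidHom h hk)
  exact Concl.of_surjective f.toAddMonoidHom hf (concl_of_module ℚ (ℚ ⊗[ℤ] V))

/-- The rationals whose denominator is prime to `p`. -/
def locA (p : ℕ) (hp : p.Prime) : AddSubgroup ℚ where
  carrier := {q | ∃ a b : ℤ, ¬ (p : ℤ) ∣ b ∧ q * b = a}
  zero_mem' := ⟨0, 1, by
    intro h
    have := Int.eq_one_of_dvd_one (by positivity) h
    have h2 := hp.one_lt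
    omega, by simp⟩
  add_mem' := by
    rintro q q' ⟨a, b, hb, h⟩ ⟨a', b', hb', h'⟩
    refine ⟨a * b' + a' * b, b * b', ?_, ?_⟩
    · intro hd
      rcases (Nat.prime_iff_prime_int.1 hp).dvd_or_dvd hd with h1 | h1
      · exact hb h1
      · exact hb' h1
    · push_cast
      rw [← h, ← h']
      ring
  neg_mem' := by
    rintro q ⟨a, b, hb, h⟩
    exact ⟨-a, b, hb, by push_cast; rw [← h]; ring⟩

section

variable (p : ℕ) (hp : p.Prime)

/-- The class of `1 / p`. -/
def z0 : ℚ ⧸ locA p hp := QuotientAddGroup.mk (1 / (p : ℚ))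

include hp in
lemma hp0 : (p : ℚ) ≠ 0 := by exact_mod_cast hp.ne_zero

include hp in
lemma not_dvd_one : ¬ (p : ℤ) ∣ 1 := by
  intro h
  have := Int.eq_one_of_dvd_one (by positivity) h
  have h2 := hp.one_lt
  omega

lemma F1 : p • z0 p hp = 0 := by
  unfold z0
  rw [← QuotientAddGroup.mk_nsmul, QuotientAddGroup.eq_zero_iff]
  refine ⟨1, 1, not_dvd_one p hp, ?_⟩
  have := hp0 p hp
  rw [nsmul_eq_mul]
  push_cast
  field_simp

lemma F4 : z0 p hp ≠ 0 := by
  unfold z0
  rw [Ne, QuotientAddGroup.eq_zero_iff]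
  rintro ⟨a, b, hb, h⟩
  apply hb
  refine ⟨a, ?_⟩
  have := hp0 p hp
  have h2 : (b : ℚ) = p * a := by
    rw [← h]
    field_simp
  exact_mod_cast h2

lemma F2 (z : ℚ ⧸ locA p hp) (hz : p • z = 0) : ∃ k : ℤ, z = k • z0 p hp := by
  obtain ⟨q, rfl⟩ := QuotientAddGroup.mk_surjective z
  rw [← QuotientAddGroup.mk_nsmul, QuotientAddGroup.eq_zero_iff] at hz
  obtain ⟨a, b, hb, h⟩ := hz
  have hcop : IsCoprime (p : ℤ) b := (Nat.prime_iff_prime_int.1 hp).coprime_iff_not_dvd.2 hb
  obtain ⟨u, v, huv⟩ := hcop
  -- `k = a v`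
  refine ⟨a * v, ?_⟩
  unfold z0
  rw [← QuotientAddGroup.mk_zsmul, QuotientAddGroup.eq]
  refine ⟨-(a * u), b, hb, ?_⟩
  have hp' := hp0 p hp
  rw [nsmul_eq_mul] at h
  have huv' : (u : ℚ) * p + v * b = 1 := by exact_mod_cast huv
  rw [zsmul_eq_mul]
  push_cast
  field_simp
  linear_combination (-1 : ℚ) * h + (a : ℚ) * huv'

lemma F3 (z : ℚ ⧸ locA p hp) : ∃ n : ℕ, p ^ n • z = 0 := by
  obtain ⟨q, rfl⟩ := QuotientAddGroup.mk_surjective z
  obtain ⟨n, m, hm, hden⟩ := Nat.exists_eq_pow_mul_and_not_dvd q.den_nz p hp.ne_one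
  refine ⟨n, ?_⟩
  rw [← QuotientAddGroup.mk_nsmul, QuotientAddGroup.eq_zero_iff]
  refine ⟨q.num, m, by exact_mod_cast hm, ?_⟩
  have h1 := Rat.mul_den_eq_num q
  rw [hden] at h1
  push_cast at h1
  rw [nsmul_eq_mul]
  push_cast
  linear_combination h1

lemma F6 {n : ℤ} (hn : n ≠ 0) (z : ℚ ⧸ locA p hp) : ∃ w, n • w = z := by
  obtain ⟨q, rfl⟩ := QuotientAddGroup.mk_surjective z
  refine ⟨QuotientAddGroup.mk (q / n), ?_⟩
  rw [← QuotientAddGroup.mk_zsmul]
  congr 1
  have : (n : ℚ) ≠ 0 := by exact_mod_cast hn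
  rw [zsmul_eq_mul]
  field_simp

include hp in
lemma case_torsion (V : Type) [AddCommGroup V] (hdiv : ∀ n : ℕ, n ≠ 0 → ∀ v : V, ∃ w, n • w = v)
    (h : Uncountable (nsmulAddMonoidHom p : V →+ V).ker) : Concl V := by
  have : Fact p.Prime := ⟨hp⟩
  let T := (nsmulAddMonoidHom p : V →+ V).ker
  let _ : Module (ZMod p) T := AddCommGroup.zmodModule (n := p) (by
    intro x
    apply Subtype.ext
    exact x.2)
  obtain ⟨J, hJ, e, r, hr⟩ := exists_basis_fun (ZMod p) T
  let Z := ℚ ⧸ locA p hp
  -- divisibility of the direct sum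
  have hsurj : ∀ {n : ℤ}, n ≠ 0 → Function.Surjective (fun x : J →₀ Z => n • x) := by
    intro n hn x
    induction x using Finsupp.induction_linear with
    | zero => exact ⟨0, smul_zero _⟩
    | add x y hx hy =>
      obtain ⟨a, rfl⟩ := hx
      obtain ⟨c, rfl⟩ := hy
      exact ⟨a + c, smul_add _ _ _⟩
    | single j z =>
      obtain ⟨w, hw⟩ := F6 p hp hn z
      exact ⟨Finsupp.single j w, by simp only [Finsupp.smul_single, hw]⟩
  let _ : DivisibleBy (J →₀ Z) ℤ := divisibleByOfSMulRightSurj _ _ hsurj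
  -- the map on the socle
  let l : ZMod p →+ Z := ZMod.lift p ⟨zmultiplesHom Z (z0 p hp), by
    simp only [zmultiplesHom_apply, natCast_zsmul]
    exact F1 p hp⟩
  have hl : l 1 = z0 p hp := by
    have := ZMod.lift_coe p (⟨zmultiplesHom Z (z0 p hp), by
      simp only [zmultiplesHom_apply, natCast_zsmul]
      exact F1 p hp⟩ : {f : ℤ →+ Z // f p = 0}) 1
    simpa using this
  let g : T →+ (J →₀ Z) := (Finsupp.mapRange.addMonoidHom l).comp r.toAddMonoidHom
  obtain ⟨f, hf⟩ := (Module.Baer.of_divisible (J →₀ Z)).extension_property_addMonoidHom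
    T.subtype T.subtype_injective g
  have hfe : ∀ j, f (e j : V) = Finsupp.single j (z0 p hp) := by
    intro j
    have h1 := DFunLike.congr_fun hf (e j)
    change f (e j : V) = g (e j) at h1
    rw [h1]
    change Finsupp.mapRange l (map_zero l) (r (e j)) = _
    rw [hr, Finsupp.mapRange_single, hl]
  -- the socle is in the range
  have hsoc : ∀ x : J →₀ Z, p • x = 0 → x ∈ f.range := by
    intro x hx
    rw [← Finsupp.sum_single x]
    apply AddSubgroup.sum_mem
    intro j _
    have hxj : p • x j = 0 := by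
      have := DFunLike.congr_fun hx j
      simpa using this
    obtain ⟨k, hk⟩ := F2 p hp (x j) hxj
    refine ⟨k • (e j : V), ?_⟩
    rw [map_zsmul, hfe, hk, Finsupp.smul_single]
  have hpow : ∀ n : ℕ, ∀ x : J →₀ Z, p ^ n • x = 0 → x ∈ f.range := by
    intro n
    induction n with
    | zero =>
      intro x hx
      rw [pow_zero, one_smul] at hx
      rw [hx]
      exact f.range.zero_mem
    | succ n ih =>
      intro x hx
      rw [pow_succ, mul_smul] at hx
      obtain ⟨v, hv⟩ := ih _ hx
      obtain ⟨w, hw⟩ := hdiv p hp.ne_zero v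
      have h1 : p • (x - f w) = 0 := by
        rw [smul_sub, ← map_nsmul, hw, hv, sub_self]
      have h2 := f.range.add_mem (hsoc _ h1) ⟨w, rfl⟩
      rwa [sub_add_cancel] at h2
  have htor : ∀ x : J →₀ Z, ∃ n : ℕ, p ^ n • x = 0 := by
    intro x
    induction x using Finsupp.induction_linear with
    | zero => exact ⟨0, smul_zero _⟩
    | add x y hx hy =>
      obtain ⟨a, ha⟩ := hx
      obtain ⟨c, hc⟩ := hy
      refine ⟨a + c, ?_⟩
      rw [smul_add, pow_add]
      nth_rewrite 1 [mul_comm (p ^ a) (p ^ c)]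
      rw [mul_smul, mul_smul, ha, hc, smul_zero, smul_zero, add_zero]
    | single j z =>
      obtain ⟨n, hn⟩ := F3 p hp z
      exact ⟨n, by rw [Finsupp.smul_single, hn, Finsupp.single_zero]⟩
  have hZ : Countable Z := Quotient.countable
  refine ⟨Z, inferInstance, hZ, ⟨⟨z0 p hp, 0, F4 p hp⟩⟩, J, hJ, f, fun x => ?_⟩
  obtain ⟨n, hn⟩ := htor x
  exact hpow n x hn

end

theorem exists_surjective_finsupp (X : Type) [AddCommGroup X] [Uncountable X] :
    ∃ (Z : Type) (_ : AddCommGroup Z) (_ : Countable Z) (_ : Nontrivial Z)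
      (J : Type) (_ : Uncountable J) (π : X →+ (J →₀ Z)), Function.Surjective π := by
  change Concl X
  by_cases h1 : ∃ p : ℕ, p.Prime ∧ Uncountable (X ⧸ (nsmulAddMonoidHom p : X →+ X).range)
  · obtain ⟨p, hp, h⟩ := h1
    have : Fact p.Prime := ⟨hp⟩
    exact case_one X p h
  · push Not at h1
    -- a countable subgroup of representatives
    let S : Set X := ⋃ p : {p : ℕ // p.Prime},
      Set.range (fun q : X ⧸ (nsmulAddMonoidHom p.1 : X →+ X).range => q.out)
    have hS : S.Countable := by
      apply Set.countable_iUnion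
      intro p
      have := h1 p.1 p.2
      exact Set.countable_range _
    let B : AddSubgroup X :=
      (LinearMap.range (Finsupp.linearCombination ℤ (fun s : S => (s : X)))).toAddSubgroup
    have hB : Countable B := by
      have := hS.to_subtype
      exact Set.countable_coe_iff.2 (Set.countable_range
        (Finsupp.linearCombination ℤ (fun s : S => (s : X))))
    have hSB : ∀ s ∈ S, s ∈ B := by
      intro s hs
      exact ⟨Finsupp.single ⟨s, hs⟩ 1, by simp⟩
    let V := X ⧸ B
    have hV : Uncountable V := by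
      by_contra h
      rw [not_uncountable_iff] at h
      exact not_countable (countable_of_subgroup B hB h)
    have hdivp : ∀ p : ℕ, p.Prime → ∀ v : V, ∃ w, p • w = v := by
      intro p hp v
      obtain ⟨x, rfl⟩ := QuotientAddGroup.mk_surjective v
      set q : X ⧸ (nsmulAddMonoidHom p : X →+ X).range := QuotientAddGroup.mk x
      have h2 : (QuotientAddGroup.mk q.out : X ⧸ (nsmulAddMonoidHom p : X →+ X).range) =
        QuotientAddGroup.mk x := q.out_eq
      rw [QuotientAddGroup.eq] at h2
      obtain ⟨y, hy⟩ := h2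
      have hmem : q.out ∈ B := hSB _ (Set.mem_iUnion.2 ⟨⟨p, hp⟩, ⟨q, rfl⟩⟩)
      refine ⟨QuotientAddGroup.mk y, ?_⟩
      rw [← QuotientAddGroup.mk_nsmul]
      rw [QuotientAddGroup.eq]
      have h3 : p • y = -q.out + x := hy
      rw [h3]
      have h4 : -(-q.out + x) + x = q.out := by abel
      rw [h4]
      exact hmem
    have hdiv : ∀ n : ℕ, n ≠ 0 → ∀ v : V, ∃ w, n • w = v := by
      intro n
      induction n using Nat.recOnMul with
      | zero => intro h; exact absurd rfl h
      | one => intro _ v; exact ⟨v, one_smul _ _⟩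
      | prime p hp => intro _; exact hdivp p hp
      | mul a b iha ihb =>
        intro hab v
        obtain ⟨w, hw⟩ := iha (left_ne_zero_of_mul hab) v
        obtain ⟨w', hw'⟩ := ihb (right_ne_zero_of_mul hab) w
        exact ⟨w', by rw [mul_smul, hw', hw]⟩
    apply Concl.of_surjective (QuotientAddGroup.mk' B) (QuotientAddGroup.mk'_surjective _)
    by_cases h3 : ∃ p : ℕ, p.Prime ∧ Uncountable (nsmulAddMonoidHom p : V →+ V).ker
    · obtain ⟨p, hp, h⟩ := h3
      exact case_torsion p hp V hdiv h
    · push Not at h3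
      exact case_free V hdiv (fun p hp => h3 p hp)

end Pool.Agent.Work.MP_7406cc_gt.Alg
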