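import Mathlib

/-!
# Compact groups are minimal and precompact
-/

open scoped Topology Pointwise
open Filter Set

namespace Pool.Agent.Work.MP_7406cc_gt.Converse

/-- A compact Hausdorff topology is minimal among Hausdorff topologies. -/
theorem eq_of_le {G : Type*} (τ t : TopologicalSpace G) (hc : @CompactSpace G τ)
    (ht : @T2Space G t) (h : τ ≤ t) : t = τ := by
  refine le_antisymm ?_ h
  have hcont : @Continuous G G τ t id := continuous_id_iff_le.2 h
  have hcl : @IsClosedMap G G τ t id := @Continuous.isClosedMap G G τ t hc ht id hcont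
  rw [TopologicalSpace.le_def]
  intro s hs
  have h1 : @IsClosed G τ sᶜ := (@isClosed_compl_iff G τ s).2 hs
  have h2 := hcl _ h1
  rw [image_id] at h2
  exact (@isClosed_compl_iff G t s).1 h2

/-- A compact group is precompact. -/
theorem precompact {G : Type*} [Group G] [TopologicalSpace G] [IsTopologicalGroup G]
    [CompactSpace G] (U : Set G) (hU : U ∈ 𝓝 (1 : G)) :
    ∃ F : Set G, F.Finite ∧ F * U = Set.univ := by
  obtain ⟨t, -, ht⟩ := isCompact_univ.elim_nhds_subcover (fun g : G => (fun x => g⁻¹ * x) ⁻¹' U) (by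
    intro g _
    have h1 : Continuous fun x : G => g⁻¹ * x := by fun_prop
    have h2 := h1.tendsto g
    rw [inv_mul_cancel] at h2
    exact h2 hU)
  refine ⟨t, t.finite_toSet, eq_univ_of_forall fun x => ?_⟩
  obtain ⟨g, hg, hx⟩ := mem_iUnion₂.1 (ht (mem_univ x))
  exact Set.mem_mul.2 ⟨g, hg, g⁻¹ * x, hx, by group⟩

/-- `(⇒)`, assuming the lemma on powers. -/
theorem split_of_metrizable
    (hrad : ∀ (F : Type) [Finite F] [TopologicalSpace F] [DiscreteTopology F],
      (¬ ∃ S : Set (Set ℕ), Cardinal.mk S ≤ Cardinal.aleph 1 ∧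
        ∀ A : Set ℕ, A.Infinite → ∃ s ∈ S, (A ∩ s).Infinite ∧ (A \ s).Infinite) →
      ∃ J : Type, Uncountable J ∧ ∀ A : Set (J → F), ¬ IsClosed A →
        ∃ (ι : Type) (_ : LinearOrder ι), WellFoundedLT ι ∧ Nonempty ι ∧
          ∃ (x : ι → (J → F)) (p : J → F), (∀ i, x i ∈ A) ∧ p ∉ A ∧
            Filter.Tendsto x Filter.atTop (nhds p))
    (hmet : ∀ (F : Type) [TopologicalSpace F] [DiscreteTopology F] [Nontrivial F]
      (J : Type) [Uncountable J], ¬ TopologicalSpace.MetrizableSpace (J → F))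
    (H : ∀ (G : Type) [CommGroup G] [τ : TopologicalSpace G] [IsTopologicalGroup G] [T2Space G],
      (∀ U ∈ 𝓝 (1 : G), ∃ F : Set G, F.Finite ∧ F * U = Set.univ) →
      (∀ t : TopologicalSpace G, τ ≤ t → @IsTopologicalGroup G t _ → @T2Space G t → t = τ) →
      (∀ A : Set G, ¬ IsClosed A →
        ∃ (ι : Type) (_ : LinearOrder ι), WellFoundedLT ι ∧ Nonempty ι ∧
          ∃ (x : ι → G) (p : G), (∀ i, x i ∈ A) ∧ p ∉ A ∧
            Filter.Tendsto x Filter.atTop (nhds p)) →
      TopologicalSpace.MetrizableSpace G) :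
    ∃ S : Set (Set ℕ), Cardinal.mk S ≤ Cardinal.aleph 1 ∧
        ∀ A : Set ℕ, A.Infinite → ∃ s ∈ S, (A ∩ s).Infinite ∧ (A \ s).Infinite := by
  by_contra hcon
  let i1 : TopologicalSpace (Multiplicative (ZMod 2)) := ⊥
  have i2 : DiscreteTopology (Multiplicative (ZMod 2)) := ⟨rfl⟩
  have i3 : IsTopologicalGroup (Multiplicative (ZMod 2)) := inferInstance
  have i4 : Finite (Multiplicative (ZMod 2)) := inferInstanceAs (Finite (ZMod 2))
  have i5 : Nontrivial (Multiplicative (ZMod 2)) := inferInstanceAs (Nontrivial (ZMod 2))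
  obtain ⟨J, hJ, hJp⟩ := hrad (Multiplicative (ZMod 2)) hcon
  apply hmet (Multiplicative (ZMod 2)) J
  have i6 : CompactSpace (Multiplicative (ZMod 2)) := Finite.compactSpace
  have i7 : CompactSpace (J → Multiplicative (ZMod 2)) := Pi.compactSpace
  exact H (J → Multiplicative (ZMod 2)) precompact (fun t ht _ ht2 => eq_of_le _ t i7 ht2 ht) hJp

end Pool.Agent.Work.MP_7406cc_gt.Converse
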