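import Mathlib
import Pool.Agent.Work.MP_7406cc_gt.Bd.B01

/-!
# The main combinatorial argument
-/

open scoped Topology
open Filter Set

namespace Pool.Agent.Work.MP_7406cc_gt.Main

/-- Pseudoradial spaces. -/
def Pseudoradial (G : Type) [TopologicalSpace G] : Prop :=
  ∀ A : Set G, ¬ IsClosed A →
    ∃ (ι : Type) (_ : LinearOrder ι), WellFoundedLT ι ∧ Nonempty ι ∧
      ∃ (x : ι → G) (p : G), (∀ i, x i ∈ A) ∧ p ∉ A ∧ Filter.Tendsto x Filter.atTop (nhds p)

/-- In a pseudoradial Hausdorff space a countable non-closed set contains an ordinary sequence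
converging outside. -/
theorem exists_seq_of_countable {G : Type} [TopologicalSpace G] [T2Space G]
    (hpr : Pseudoradial G) (A : Set G) (hA : A.Countable) (hcl : ¬ IsClosed A) :
    ∃ (x : ℕ → G) (p : G), (∀ n, x n ∈ A) ∧ p ∉ A ∧ Tendsto x atTop (𝓝 p) := by
  obtain ⟨ι, _, -, hne, x, p, hx, hp, hlim⟩ := hpr A hcl
  have hAne : A.Nonempty := ⟨x hne.some, hx _⟩
  obtain ⟨f, hf⟩ := hA.exists_eq_range hAne
  have h1 : ∀ n, ∃ b : ι, ∀ i, b ≤ i → x i ≠ f n := by
    intro n
    have h2 : {f n}ᶜ ∈ 𝓝 p := by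
      apply isOpen_compl_singleton.mem_nhds
      intro h
      apply hp
      rw [hf, h]
      exact ⟨n, rfl⟩
    have h3 := hlim h2
    rw [mem_map, mem_atTop_sets] at h3
    obtain ⟨b, hb⟩ := h3
    exact ⟨b, fun i hi => hb i hi⟩
  choose b hb using h1
  have h2 : ∀ i : ι, ∃ n, i ≤ partialSups b n := by
    intro i
    by_contra hcon
    push Not at hcon
    have h3 := hx i
    rw [hf] at h3
    obtain ⟨n, hn⟩ := h3
    exact hb n i ((le_partialSups b n).trans (hcon n).le) hn.symm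
  have h3 : Tendsto (partialSups b) atTop atTop :=
    tendsto_atTop_atTop_of_monotone (partialSups b).monotone h2
  exact ⟨fun n => x (partialSups b n), p, fun n => hx _, hp, hlim.comp h3⟩

/-- A family indexed by `ℕ` accumulating along an ultrafilter, none of whose infinite subfamilies
converge, cannot live in a pseudoradial Hausdorff space. -/
theorem false_of_family {G : Type} [TopologicalSpace G] [T2Space G]
    (hpr : Pseudoradial G) (y : ℕ → G) (g : G) (u : Ultrafilter ℕ)
    (hu : (u : Filter ℕ) ≤ cofinite) (D : Set ℕ) (hD : D ∈ u)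
    (hnc : ∀ B ⊆ D, B.Infinite → ∀ p, ¬ Tendsto y (cofinite ⊓ 𝓟 B) (𝓝 p))
    (hlim : Tendsto y u (𝓝 g)) : False := by
  let A : Set G := (y '' D) \ {g}
  have hinf : ∀ B ∈ u, B.Infinite := by
    intro B hB hfin
    have h1 : Bᶜ ∈ (u : Filter ℕ) := hu hfin.compl_mem_cofinite
    exact Ultrafilter.compl_notMem_iff.2 hB h1
  have hmem : ∀ᶠ n in (u : Filter ℕ), y n ∈ A := by
    by_contra hcon
    have h1 : ∀ᶠ n in (u : Filter ℕ), y n ∉ A := Ultrafilter.eventually_not.2 hcon
    have h2 : {n | n ∈ D ∧ y n = g} ∈ u := by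
      filter_upwards [h1, hD] with n hn hnD
      refine ⟨hnD, ?_⟩
      by_contra hne
      exact hn ⟨⟨n, hnD, rfl⟩, hne⟩
    refine hnc {n | n ∈ D ∧ y n = g} (fun n hn => hn.1) (hinf _ h2) g ?_
    have h3 : y =ᶠ[cofinite ⊓ 𝓟 {n | n ∈ D ∧ y n = g}] fun _ => g := by
      have : {n | n ∈ D ∧ y n = g} ∈ cofinite ⊓ 𝓟 {n | n ∈ D ∧ y n = g} :=
        mem_inf_of_right (mem_principal_self _)
      filter_upwards [this] with n hn using hn.2
    exact (tendsto_congr' h3).2 tendsto_const_nhds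
  have hcl : ¬ IsClosed A := by
    intro hcl
    have h1 : g ∈ A := by
      rw [← hcl.closure_eq]
      exact mem_closure_of_tendsto hlim hmem
    exact h1.2 rfl
  have hcount : A.Countable := ((Set.to_countable D).image y).mono sdiff_subset
  obtain ⟨x, p, hx, hp, hxp⟩ := exists_seq_of_countable hpr A hcount hcl
  have h1 : ∀ k, ∃ m ∈ D, y m = x k := fun k => (hx k).1
  choose m hmD hm using h1
  refine hnc (range m) ?_ ?_ p ?_
  · rintro _ ⟨k, rfl⟩
    exact hmD k
  · intro hfin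
    have h2 : (y '' range m).Finite := hfin.image y
    have h3 : p ∈ y '' range m := by
      rw [← h2.isClosed.closure_eq]
      apply mem_closure_of_tendsto hxp
      exact Eventually.of_forall fun k => ⟨m k, ⟨k, rfl⟩, hm k⟩
    obtain ⟨_, ⟨k, rfl⟩, hk⟩ := h3
    apply hp
    rw [← hk, hm]
    exact hx k
  · intro U hU
    have h2 := hxp hU
    rw [mem_map, mem_atTop_sets] at h2
    obtain ⟨k0, hk0⟩ := h2
    rw [mem_map, mem_inf_principal]
    have h3 : (m '' {k | k < k0}).Finite := (Set.finite_lt_nat k0).image m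
    filter_upwards [h3.compl_mem_cofinite] with n hn hnB
    obtain ⟨k, rfl⟩ := hnB
    have h4 : k0 ≤ k := by
      by_contra hcon
      exact hn ⟨k, not_le.1 hcon, rfl⟩
    have h5 := hk0 k h4
    show y (m k) ∈ U
    rw [hm]
    exact h5

/-- A diagonal argument. -/
theorem diag {C : Type*} [Countable C] [Nonempty C] (H : C → Set (ℕ → ℕ))
    (hH : ∀ h, ∃ c, h ∈ H c) : ∃ c i, ∀ n, ∃ h ∈ H c, h i = n := by
  by_contra hcon
  push Not at hcon
  choose N hN using hcon
  obtain ⟨q, hq⟩ := exists_surjective_nat C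
  obtain ⟨c, hc⟩ := hH fun i => N (q i) i
  obtain ⟨i, rfl⟩ := hq c
  exact hN (q i) i _ hc rfl

theorem exists_select (u : Filter ℕ) (hu : u ≤ atTop) (P : ℕ → Set ℕ) (hP : ∀ j, P j ∈ u) :
    ∃ f : ℕ → ℕ, Tendsto f u atTop ∧ ∀ᶠ n in u, n ∈ P (f n) := by
  classical
  refine ⟨fun n => Nat.findGreatest (fun j => n ∈ P j) n, ?_, ?_⟩
  · rw [tendsto_atTop]
    intro j
    filter_upwards [hP j, hu (Ici_mem_atTop j)] with n hn hjn
    exact Nat.le_findGreatest hjn hn
  · filter_upwards [hP 0] with n hn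
    exact Nat.findGreatest_spec (P := fun j => n ∈ P j) (Nat.zero_le n) hn

/-- Characters of discrete abelian groups separate points. -/
theorem exists_hom_ne (Z : Type) [AddCommGroup Z] (a : Z) (ha : a ≠ 0) :
    ∃ f : Multiplicative Z →* Circle, f (Multiplicative.ofAdd a) ≠ 1 := by
  obtain ⟨c, hc⟩ := CharacterModule.exists_character_apply_ne_zero_of_ne_zero ha
  have hle : AddSubgroup.zmultiples (1 : ℚ) ≤
      (AddSubgroup.zmultiples (1 : ℝ)).comap (Rat.castHom ℝ).toAddMonoidHom := by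
    rw [AddSubgroup.zmultiples_le]
    exact ⟨1, by simp⟩
  let e : AddCircle (1 : ℚ) →+ AddCircle (1 : ℝ) :=
    QuotientAddGroup.map (AddSubgroup.zmultiples (1 : ℚ)) (AddSubgroup.zmultiples (1 : ℝ))
      (Rat.castHom ℝ).toAddMonoidHom hle
  have he : ∀ q : ℚ, e (q : AddCircle (1 : ℚ)) = ((q : ℝ) : AddCircle (1 : ℝ)) := fun q => rfl
  have hinj : ∀ z, e z = 0 → z = 0 := by
    intro z
    induction z using QuotientAddGroup.induction_on with
    | H q =>
      intro h
      have h1 : ((q : ℝ) : AddCircle (1 : ℝ)) = 0 := h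
      rw [AddCircle.coe_eq_zero_iff] at h1
      obtain ⟨n, hn⟩ := h1
      have h2 : (q : AddCircle (1 : ℚ)) = 0 := by
        rw [AddCircle.coe_eq_zero_iff]
        refine ⟨n, ?_⟩
        have h3 : (n : ℝ) = (q : ℝ) := by simpa using hn
        have h4 : (n : ℚ) = q := by exact_mod_cast h3
        simpa using h4
      exact h2
  let f : Multiplicative Z →* Circle :=
    { toFun := fun z => AddCircle.toCircle (e (c (Multiplicative.toAdd z)))
      map_one' := by simp
      map_mul' := fun x y => by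
        rw [toAdd_mul, map_add, map_add, AddCircle.toCircle_add] }
  refine ⟨f, fun h => hc (hinj _ ?_)⟩
  have h1 : AddCircle.toCircle (e (c a)) = AddCircle.toCircle (0 : AddCircle (1 : ℝ)) := by
    rw [AddCircle.toCircle_zero]
    exact h
  exact AddCircle.injective_toCircle one_ne_zero h1

section main

variable {Z J : Type} [AddCommGroup Z]

open Classical in
/-- Sum of the coordinates in `T`. -/
noncomputable def zT (T : Set J) : (J →₀ Z) →+ Z :=
  Finsupp.liftAddHom fun j => if j ∈ T then AddMonoidHom.id Z else 0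

open Classical in
theorem zT_apply (T : Set J) (f : J →₀ Z) :
    zT T f = ∑ j ∈ f.support, if j ∈ T then f j else 0 := by
  rw [zT, Finsupp.liftAddHom_apply, Finsupp.sum]
  apply Finset.sum_congr rfl
  intro j _
  split_ifs <;> rfl

open Classical in
theorem zT_single (T : Set J) (j : J) (a : Z) :
    zT T (Finsupp.single j a) = if j ∈ T then a else 0 := by
  rw [zT, Finsupp.liftAddHom_apply, Finsupp.sum_single_index (by simp)]
  split_ifs <;> rfl

theorem zT_eventually (u : Ultrafilter ℕ) (T : ℕ → Set J) (f : J →₀ Z) :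
    ∀ᶠ n in (u : Filter ℕ), zT (T n) f = zT {j | ∀ᶠ n in (u : Filter ℕ), j ∈ T n} f := by
  classical
  have h1 : ∀ᶠ n in (u : Filter ℕ), ∀ j ∈ f.support,
      (j ∈ T n ↔ ∀ᶠ n in (u : Filter ℕ), j ∈ T n) := by
    rw [Filter.eventually_all_finset]
    intro j _
    by_cases hj : ∀ᶠ n in (u : Filter ℕ), j ∈ T n
    · filter_upwards [hj] with n hn
      exact ⟨fun _ => hj, fun _ => hn⟩
    · have h2 : ∀ᶠ n in (u : Filter ℕ), j ∉ T n := Ultrafilter.eventually_not.2 hj
      filter_upwards [h2] with n hn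
      exact ⟨fun h => absurd h hn, fun h => absurd h hj⟩
  filter_upwards [h1] with n hn
  rw [zT_apply, zT_apply]
  apply Finset.sum_congr rfl
  intro j hj
  have h2 := hn j hj
  simp only [Set.mem_ofPred_eq]
  by_cases h3 : j ∈ T n
  · rw [if_pos h3, if_pos (h2.1 h3)]
  · rw [if_neg h3, if_neg (fun h => h3 (h2.2 h))]

variable {K : Type} [CommGroup K] [TopologicalSpace K] [IsTopologicalGroup K]
  [CompactSpace K] [T2Space K] (π : Additive (K →ₜ* Circle) →+ (J →₀ Z))

omit [IsTopologicalGroup K] [T2Space K] in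
theorem exists_pt (ψ : Dual.homs (Multiplicative Z)) (T : Set J) :
    ∃ k : K, ∀ χ : K →ₜ* Circle,
      χ k = ψ.1 (Multiplicative.ofAdd (zT T (π (Additive.ofMul χ)))) := by
  let Φ : (K →ₜ* Circle) →* Circle :=
    { toFun := fun χ => ψ.1 (Multiplicative.ofAdd (zT T (π (Additive.ofMul χ))))
      map_one' := by
        have h1 := ψ.2 1 1
        rw [mul_one] at h1
        have h2 : ψ.1 1 = 1 := mul_eq_left.1 h1.symm
        rw [ofMul_one, map_zero, map_zero, ofAdd_zero, h2]
      map_mul' := by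
        intro χ θ
        rw [ofMul_mul, map_add, map_add, ofAdd_add]
        exact ψ.2 _ _ }
  obtain ⟨k, hk⟩ := Dual.exists_eval Φ
  exact ⟨k, fun χ => (hk χ).symm⟩

/-- The point of `K` given by a homomorphism on `Z` and a set of coordinates. -/
noncomputable def pt (ψ : Dual.homs (Multiplicative Z)) (T : Set J) : K :=
  (exists_pt π ψ T).choose

omit [IsTopologicalGroup K] [T2Space K] in
theorem pt_spec (ψ : Dual.homs (Multiplicative Z)) (T : Set J) (χ : K →ₜ* Circle) :
    χ (pt π ψ T) = ψ.1 (Multiplicative.ofAdd (zT T (π (Additive.ofMul χ)))) :=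
  (exists_pt π ψ T).choose_spec χ

/-- `pt` as a homomorphism. -/
noncomputable def ptHom (T : Set J) : Dual.homs (Multiplicative Z) →* K :=
  MonoidHom.mk' (fun ψ => pt π ψ T) (by
    intro a b
    apply Dual.eq_of_forall
    intro χ
    rw [map_mul, pt_spec, pt_spec, pt_spec]
    rfl)

theorem ptHom_apply (T : Set J) (ψ : Dual.homs (Multiplicative Z)) :
    ptHom π T ψ = pt π ψ T := rfl

theorem continuous_ptHom (T : Set J) : Continuous (ptHom π T) := by
  rw [continuous_iff_continuousAt]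
  intro ψ
  rw [ContinuousAt, Dual.tendsto_iff]
  intro χ
  simp only [ptHom_apply, pt_spec]
  have h1 : Continuous fun ψ : Dual.homs (Multiplicative Z) =>
      ψ.1 (Multiplicative.ofAdd (zT T (π (Additive.ofMul χ)))) :=
    (continuous_apply _).comp continuous_subtype_val
  exact h1.tendsto ψ

/-- The main argument: an essential pseudoradial subgroup of a compact abelian group whose dual
maps onto an uncountable direct sum is impossible when there is a splitting family of size at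
most `ℵ₁`. -/
theorem main_aux {G : Type} [CommGroup G] [TopologicalSpace G] [T2Space G]
    (hpr : Pseudoradial G) (ι : G →* K) (hι : Topology.IsEmbedding ι)
    (hess : ∀ M : Subgroup K, IsClosed (M : Set K) → M ≠ ⊥ → ∃ g : G, g ≠ 1 ∧ ι g ∈ M)
    [Countable Z] [Nontrivial Z] [Uncountable J] (hπ : Function.Surjective π)
    (S : Set (Set ℕ)) (hS : Cardinal.mk S ≤ Cardinal.aleph 1)
    (hsplit : ∀ A : Set ℕ, A.Infinite → ∃ s ∈ S, (A ∩ s).Infinite ∧ (A \ s).Infinite) :
    False := by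
  classical
  have hcompL : CompactSpace (Dual.homs (Multiplicative Z)) :=
    isCompact_iff_compactSpace.1 (Dual.isClosed_homs (Multiplicative Z)).isCompact
  -- the embedding of the index set
  let S' : Set (Set ℕ) := insert univ S
  have hcard : Cardinal.mk (ℕ × S') ≤ Cardinal.mk J := by
    have h1 : Cardinal.mk S' ≤ Cardinal.aleph 1 := by
      refine (Cardinal.mk_insert_le).trans ?_
      refine (add_le_add_left hS 1).trans ?_
      rw [Cardinal.add_one_eq (Cardinal.aleph0_le_aleph 1)]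
    have h2 : Cardinal.mk (ℕ × S') ≤ Cardinal.aleph 1 := by
      rw [Cardinal.mk_prod, Cardinal.lift_id, Cardinal.lift_id]
      refine (mul_le_mul' (Cardinal.mk_le_aleph0.trans (Cardinal.aleph0_le_aleph 1)) h1).trans ?_
      rw [Cardinal.mul_eq_self (Cardinal.aleph0_le_aleph 1)]
    have h3 : Cardinal.aleph 1 ≤ Cardinal.mk J := by
      rw [← Cardinal.succ_aleph0, Order.succ_le_iff]
      exact Cardinal.aleph0_lt_mk_iff.2 inferInstance
    exact h2.trans h3
  obtain ⟨e⟩ := (Cardinal.le_def _ _).1 hcard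
  let Th : (ℕ → ℕ) → Set J := fun h => {j | ∃ i : ℕ, ∃ s : S', j = e (i, s) ∧ h i ∈ s.1}
  have hTh : ∀ h i (s : S'), e (i, s) ∈ Th h ↔ h i ∈ s.1 := by
    intro h i s
    constructor
    · rintro ⟨i', s', h1, h2⟩
      have h3 := e.injective h1
      rw [Prod.mk.injEq] at h3
      obtain ⟨rfl, rfl⟩ := h3
      exact h2
    · intro h1
      exact ⟨i, s, rfl, h1⟩
  let t0 : S' := ⟨univ, mem_insert _ _⟩
  have hTh0 : ∀ h, e (0, t0) ∈ Th h := fun h => (hTh h 0 t0).2 (mem_univ _)
  -- evaluation of `pt` at a unit vector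
  have hunit : ∀ (j : J) (a : Z), ∃ χ : K →ₜ* Circle, ∀ (ψ : Dual.homs (Multiplicative Z))
      (T : Set J), χ (pt π ψ T) = if j ∈ T then ψ.1 (Multiplicative.ofAdd a) else 1 := by
    intro j a
    obtain ⟨χ, hχ⟩ := hπ (Finsupp.single j a)
    refine ⟨χ.toMul, fun ψ T => ?_⟩
    rw [pt_spec, ofMul_toMul, hχ, zT_single]
    split_ifs
    · rfl
    · have h1 := ψ.2 1 1
      rw [mul_one] at h1
      exact mul_eq_left.1 h1.symm
  -- step F3
  have hF3 : ∀ h : ℕ → ℕ, ∃ ψ : Dual.homs (Multiplicative Z), ψ ≠ 1 ∧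
      ∃ g : G, ι g = pt π ψ (Th h) := by
    intro h
    have hcl : IsClosed ((ptHom π (Th h)).range : Set K) := by
      have h1 : ((ptHom π (Th h)).range : Set K) = Set.range (ptHom π (Th h)) := rfl
      rw [h1]
      exact (isCompact_range (continuous_ptHom π (Th h))).isClosed
    have hne : (ptHom π (Th h)).range ≠ ⊥ := by
      intro hbot
      obtain ⟨a, ha⟩ := exists_ne (0 : Z)
      obtain ⟨f, hf⟩ := exists_hom_ne Z a ha
      obtain ⟨χ, hχ⟩ := hunit (e (0, t0)) a
      let ψ : Dual.homs (Multiplicative Z) := ⟨f, map_mul f⟩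
      have h1 : ptHom π (Th h) ψ ∈ (ptHom π (Th h)).range := ⟨ψ, rfl⟩
      rw [hbot, Subgroup.mem_bot] at h1
      have h2 := hχ ψ (Th h)
      rw [if_pos (hTh0 h), ← ptHom_apply, h1, map_one] at h2
      exact hf h2.symm
    obtain ⟨g, hg1, ψ, hψ⟩ := hess _ hcl hne
    refine ⟨ψ, ?_, g, hψ.symm⟩
    rintro rfl
    rw [map_one] at hψ
    exact hg1 (hι.injective (by rw [← hψ, map_one]))
  choose Ψ hΨ1 gg hgg using hF3
  -- step F4, F5
  obtain ⟨⟨a, m⟩, i, hdiag⟩ := diag (C := Z × ℕ)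
    (fun c => {h | 1 / ((c.2 : ℝ) + 1) ≤ dist ((Ψ h).1 (Multiplicative.ofAdd c.1)) 1}) (by
      intro h
      have h1 : ∃ b : Multiplicative Z, (Ψ h).1 b ≠ 1 := by
        by_contra hcon
        push Not at hcon
        exact hΨ1 h (Subtype.ext (funext hcon))
      obtain ⟨b, hb⟩ := h1
      obtain ⟨m, hm⟩ := exists_nat_one_div_lt (dist_pos.2 hb)
      exact ⟨(b.toAdd, m), hm.le⟩)
  choose hn hn1 hn2 using hdiag
  simp only [Set.mem_ofPred_eq] at hn1
  -- the ultrafilter
  let u : Ultrafilter ℕ := hyperfilter ℕ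
  have hu : (u : Filter ℕ) ≤ cofinite := hyperfilter_le_cofinite
  have hu' : (u : Filter ℕ) ≤ atTop := by rw [← Nat.cofinite_eq_atTop]; exact hu
  let T : ℕ → Set J := fun n => Th (hn n)
  let Tlim : Set J := {j | ∀ᶠ n in (u : Filter ℕ), j ∈ T n}
  -- limit of the homomorphisms
  obtain ⟨φ, -, hφ⟩ := (isCompact_univ (X := Dual.homs (Multiplicative Z))).ultrafilter_le_nhds
    (u.map fun n => Ψ (hn n)) (by simp)
  have hφlim : Tendsto (fun n => Ψ (hn n)) u (𝓝 φ) := hφ
  have hevalc : ∀ b : Multiplicative Z, Continuous fun ψ : Dual.homs (Multiplicative Z) => ψ.1 b :=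
    fun b => (continuous_apply b).comp continuous_subtype_val
  have hφa : φ.1 (Multiplicative.ofAdd a) ≠ 1 := by
    intro h
    have h1 : Tendsto (fun n => dist ((Ψ (hn n)).1 (Multiplicative.ofAdd a)) 1) u
        (𝓝 (dist (φ.1 (Multiplicative.ofAdd a)) 1)) :=
      (((hevalc _).tendsto φ).comp hφlim).dist tendsto_const_nhds
    have h2 := ge_of_tendsto h1 (Eventually.of_forall hn1)
    rw [h, dist_self] at h2
    have h3 : (0 : ℝ) < 1 / ((m : ℝ) + 1) := by positivity
    linarith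
  have hT0 : e (0, t0) ∈ Tlim := Eventually.of_forall fun n => hTh0 (hn n)
  -- step F8
  obtain ⟨g, hg1, ψ, hψcl, hψ⟩ : ∃ g : G, g ≠ 1 ∧ ∃ ψ : Dual.homs (Multiplicative Z),
      ψ ∈ closure (Subgroup.zpowers φ : Set (Dual.homs (Multiplicative Z))) ∧
      pt π ψ Tlim = ι g := by
    let C : Subgroup (Dual.homs (Multiplicative Z)) := (Subgroup.zpowers φ).topologicalClosure
    have hC : IsClosed (C : Set (Dual.homs (Multiplicative Z))) :=
      Subgroup.isClosed_topologicalClosure _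
    have hcl : IsClosed ((C.map (ptHom π Tlim) : Subgroup K) : Set K) := by
      rw [Subgroup.coe_map]
      exact (hC.isCompact.image (continuous_ptHom π Tlim)).isClosed
    have hne : C.map (ptHom π Tlim) ≠ ⊥ := by
      intro hbot
      have h1 : ptHom π Tlim φ ∈ C.map (ptHom π Tlim) :=
        ⟨φ, Subgroup.le_topologicalClosure _ (Subgroup.mem_zpowers φ), rfl⟩
      rw [hbot, Subgroup.mem_bot] at h1
      obtain ⟨χ, hχ⟩ := hunit (e (0, t0)) a
      have h2 := hχ φ Tlim
      rw [if_pos hT0, ← ptHom_apply, h1, map_one] at h2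
      exact hφa h2.symm
    obtain ⟨g, hg1, ψ, hψ, hψg⟩ := hess _ hcl hne
    exact ⟨g, hg1, ψ, hψ, hψg⟩
  -- step F9
  have hZc : Countable (Multiplicative Z) := inferInstanceAs (Countable Z)
  have hfc : FirstCountableTopology (Multiplicative Z → Circle) := inferInstance
  have hfc' : FirstCountableTopology (Dual.homs (Multiplicative Z)) :=
    Topology.IsInducing.subtypeVal.firstCountableTopology
  obtain ⟨U, hU⟩ := (𝓝 ψ).exists_antitone_basis
  have hv : ∀ j, ∃ v : ℤ, ∀ᶠ n in (u : Filter ℕ), (Ψ (hn n)) ^ v ∈ U j := by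
    intro j
    have h1 : U j ∈ 𝓝 ψ := hU.mem j
    have h2 : interior (U j) ∈ 𝓝 ψ := interior_mem_nhds.2 h1
    obtain ⟨_, hy, v, rfl⟩ := mem_closure_iff_nhds.1 hψcl _ h2
    refine ⟨v, ?_⟩
    have h3 : Tendsto (fun n => (Ψ (hn n)) ^ v) u (𝓝 (φ ^ v)) := hφlim.zpow v
    have h4 : U j ∈ 𝓝 (φ ^ v) := mem_interior_iff_mem_nhds.1 hy
    exact h3 h4
  choose v hv using hv
  obtain ⟨f, hf1, hf2⟩ := exists_select u hu' (fun j => {n | (Ψ (hn n)) ^ (v j) ∈ U j}) hv
  let ψn : ℕ → Dual.homs (Multiplicative Z) := fun n => (Ψ (hn n)) ^ (v (f n))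
  have hψlim : Tendsto ψn u (𝓝 ψ) := by
    rw [hU.tendsto_right_iff]
    intro j _
    filter_upwards [hf1.eventually_ge_atTop j, hf2] with n h1 h2
    exact hU.antitone h1 h2
  -- step F10
  let y : ℕ → G := fun n => (gg (hn n)) ^ (v (f n))
  have hy : ∀ n, ι (y n) = pt π (ψn n) (T n) := by
    intro n
    simp only [y, ψn, T]
    rw [map_zpow, hgg, ← ptHom_apply, ← map_zpow, ptHom_apply]
  -- step F11
  have hylim : Tendsto y u (𝓝 g) := by
    rw [hι.tendsto_nhds_iff, Dual.tendsto_iff]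
    intro χ
    rw [← hψ, pt_spec]
    have h1 : ∀ᶠ n in (u : Filter ℕ), ψ.1 = ψ.1 ∧
        χ ((ι ∘ y) n) = (ψn n).1 (Multiplicative.ofAdd (zT Tlim (π (Additive.ofMul χ)))) := by
      filter_upwards [zT_eventually u T (π (Additive.ofMul χ))] with n hn'
      refine ⟨rfl, ?_⟩
      rw [Function.comp_apply, hy, pt_spec, hn']
    refine Tendsto.congr' (h1.mono fun n h => h.2.symm) ?_
    exact ((hevalc _).tendsto ψ).comp hψlim
  -- step F12
  have hψ1 : ψ ≠ 1 := by
    rintro rfl
    rw [← ptHom_apply, map_one] at hψ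
    exact hg1 (hι.injective (by rw [← hψ, map_one]))
  obtain ⟨a', ha'⟩ : ∃ b : Multiplicative Z, ψ.1 b ≠ 1 := by
    by_contra hcon
    push Not at hcon
    exact hψ1 (Subtype.ext (funext hcon))
  have hdpos : 0 < dist (ψ.1 a') 1 := dist_pos.2 ha'
  let ε : ℝ := dist (ψ.1 a') 1 / 2
  let D : Set ℕ := {n | ε ≤ dist ((ψn n).1 a') 1}
  have hD : D ∈ u := by
    have h1 : Tendsto (fun n => dist ((ψn n).1 a') 1) u (𝓝 (dist (ψ.1 a') 1)) :=
      (((hevalc _).tendsto ψ).comp hψlim).dist tendsto_const_nhds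
    exact h1.eventually (Ici_mem_nhds (half_lt_self hdpos))
  refine false_of_family hpr y g u hu D hD ?_ hylim
  -- step F13
  intro B hBD hB p hp
  obtain ⟨s, hsS, hs1, hs2⟩ := hsplit B hB
  let s' : S' := ⟨s, mem_insert_of_mem _ hsS⟩
  obtain ⟨χ, hχ⟩ := hunit (e (i, s')) a'.toAdd
  have hval : ∀ n, χ (ι (y n)) = if n ∈ s then (ψn n).1 a' else 1 := by
    intro n
    rw [hy, hχ]
    have h1 : e (i, s') ∈ T n ↔ n ∈ s := by
      rw [hTh, hn2]
    simp only [h1, ofAdd_toAdd]
  have hlim2 : Tendsto (fun n => dist (χ (ι (y n))) 1) (cofinite ⊓ 𝓟 B)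
      (𝓝 (dist (χ (ι p)) 1)) := by
    have h1 : Continuous fun k : K => dist (χ k) 1 := χ.continuous_toFun.dist continuous_const
    exact (h1.comp hι.continuous).continuousAt.tendsto.comp hp
  have hbig : ε ≤ dist (χ (ι p)) 1 := by
    have h1 : NeBot (cofinite ⊓ 𝓟 (B ∩ s)) := cofinite_inf_principal_neBot_iff.2 hs1
    have h2 : Tendsto (fun n => dist (χ (ι (y n))) 1) (cofinite ⊓ 𝓟 (B ∩ s))
        (𝓝 (dist (χ (ι p)) 1)) :=
      hlim2.mono_left (inf_le_inf_left _ (principal_mono.2 inter_subset_left))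
    refine ge_of_tendsto h2 ?_
    have h3 : B ∩ s ∈ cofinite ⊓ 𝓟 (B ∩ s) := mem_inf_of_right (mem_principal_self _)
    filter_upwards [h3] with n hn'
    rw [hval, if_pos hn'.2]
    exact hBD hn'.1
  have hsmall : dist (χ (ι p)) 1 ≤ 0 := by
    have h1 : NeBot (cofinite ⊓ 𝓟 (B \ s)) := cofinite_inf_principal_neBot_iff.2 hs2
    have h2 : Tendsto (fun n => dist (χ (ι (y n))) 1) (cofinite ⊓ 𝓟 (B \ s))
        (𝓝 (dist (χ (ι p)) 1)) :=
      hlim2.mono_left (inf_le_inf_left _ (principal_mono.2 sdiff_subset))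
    refine le_of_tendsto h2 ?_
    have h3 : B \ s ∈ cofinite ⊓ 𝓟 (B \ s) := mem_inf_of_right (mem_principal_self _)
    filter_upwards [h3] with n hn'
    rw [hval, if_neg hn'.2, dist_self]
  have hεpos : 0 < ε := half_pos hdpos
  linarith

end main

end Pool.Agent.Work.MP_7406cc_gt.Main
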