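import Mathlib
import Pool.Agent.Work.MP_7406cc_gt.Main
import Pool.Agent.Work.MP_55ec57_gt.Completion

/-!
# Minimal precompact abelian groups are essential in their completion
-/

open scoped Topology Pointwise
open Filter Set

namespace Pool.Agent.Work.MP_7406cc_gt.Essential

variable {G : Type*} [CommGroup G] [τ : TopologicalSpace G] [IsTopologicalGroup G] [T2Space G]

omit [IsTopologicalGroup G] [T2Space G] in
/-- A dense minimal subgroup meets every nontrivial closed subgroup. -/
theorem essential_of_minimal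
    (hmin : ∀ t : TopologicalSpace G, τ ≤ t → @IsTopologicalGroup G t _ → @T2Space G t → t = τ)
    {K : Type*} [CommGroup K] [TopologicalSpace K] [IsTopologicalGroup K] [CompactSpace K]
    [T2Space K] (ι : G →* K) (hι : Topology.IsEmbedding ι) (hd : DenseRange ι)
    (N : Subgroup K) (hN : IsClosed (N : Set K)) (hne : N ≠ ⊥) :
    ∃ g : G, g ≠ 1 ∧ ι g ∈ N := by
  by_contra hcon
  push Not at hcon
  apply hne
  have : T2Space (K ⧸ N) := by
    have : IsClosed (N : Set K) := hN
    infer_instance
  let q : G →* K ⧸ N := (QuotientGroup.mk' N).comp ι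
  have hq : Continuous q := QuotientGroup.continuous_mk.comp hι.continuous
  have hqinj : Function.Injective q := by
    rw [injective_iff_map_eq_one]
    intro g hg
    by_contra hg1
    exact hcon g hg1 ((QuotientGroup.eq_one_iff _).mp hg)
  have hind : @Topology.IsInducing G (K ⧸ N) τ _ q := by
    have ht1 : τ ≤ TopologicalSpace.induced q inferInstance := continuous_iff_le_induced.1 hq
    have ht2 : @IsTopologicalGroup G (TopologicalSpace.induced q inferInstance) _ :=
      topologicalGroup_induced q
    have ht3 : @T2Space G (TopologicalSpace.induced q inferInstance) := by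
      have h0 : @Topology.IsInducing G (K ⧸ N) (TopologicalSpace.induced q inferInstance) _ q :=
        @Topology.IsInducing.mk _ _ (TopologicalSpace.induced q inferInstance) _ _ rfl
      have h1 : @Topology.IsEmbedding G (K ⧸ N) (TopologicalSpace.induced q inferInstance) _ q :=
        @Topology.IsEmbedding.mk _ _ (TopologicalSpace.induced q inferInstance) _ _ h0 hqinj
      exact @Topology.IsEmbedding.t2Space _ _ (TopologicalSpace.induced q inferInstance) _ _ _ h1
    exact @Topology.IsInducing.mk _ _ τ _ _ (hmin _ ht1 ht2 ht3).symm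
  rw [eq_bot_iff]
  intro n hn
  rw [Subgroup.mem_bot]
  have hnb : NeBot (comap ι (𝓝 n)) :=
    (IsDenseInducing.mk hι.isInducing hd).comap_nhds_neBot n
  have h1 : Tendsto ι (comap ι (𝓝 n)) (𝓝 n) := tendsto_comap
  have h2 : Tendsto q (comap ι (𝓝 n)) (𝓝 (q 1)) := by
    have h3 : Tendsto (fun k : K => (QuotientGroup.mk k : K ⧸ N)) (𝓝 n) (𝓝 (QuotientGroup.mk n)) :=
      QuotientGroup.continuous_mk.tendsto n
    have h4 : (QuotientGroup.mk n : K ⧸ N) = 1 := (QuotientGroup.eq_one_iff n).mpr hn
    rw [h4] at h3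
    rw [map_one]
    exact h3.comp h1
  have h7 : Tendsto (fun g : G => g) (comap ι (𝓝 n)) (𝓝 1) := by
    rw [hind.tendsto_nhds_iff]
    exact h2
  have h9 : Tendsto ι (comap ι (𝓝 n)) (𝓝 1) := by
    have h10 := (hι.continuous.tendsto 1).comp h7
    rw [map_one] at h10
    exact h10
  exact tendsto_nhds_unique h1 h9

/-- The completion of a precompact abelian group is abelian. -/
theorem exists_completion (G : Type) [CommGroup G] [TopologicalSpace G] [IsTopologicalGroup G]
    [T2Space G] (htb : ∀ U ∈ 𝓝 (1 : G), ∃ F : Set G, F.Finite ∧ F * U = Set.univ) :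
    ∃ (K : Type) (_ : CommGroup K) (_ : TopologicalSpace K) (_ : IsTopologicalGroup K)
      (_ : CompactSpace K) (_ : T2Space K) (ι : G →* K),
      Topology.IsEmbedding ι ∧ DenseRange ι := by
  obtain ⟨K, i1, i2, i3, i4, i5, ι, hι, hd⟩ :=
    Pool.Agent.Work.MP_55ec57_gt.Completion.completion_of_totallyBounded G htb
  have hcomm : ∀ a b : K, a * b = b * a := by
    have h1 : (fun p : K × K => p.1 * p.2) = fun p : K × K => p.2 * p.1 := by
      refine DenseRange.equalizer (hd.prodMap hd) (by fun_prop) (by fun_prop) ?_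
      ext p
      show ι p.1 * ι p.2 = ι p.2 * ι p.1
      rw [← map_mul, ← map_mul, mul_comm]
    intro a b
    exact congrFun h1 (a, b)
  exact ⟨K, { i1 with mul_comm := hcomm }, i2, i3, i4, i5, ι, hι, hd⟩

/-- `(⇐)`, assuming the algebraic lemma. -/
theorem metrizable_of_split
    (halg : ∀ (X : Type) [AddCommGroup X] [Uncountable X],
      ∃ (Z : Type) (_ : AddCommGroup Z) (_ : Countable Z) (_ : Nontrivial Z)
        (J : Type) (_ : Uncountable J) (π : X →+ (J →₀ Z)), Function.Surjective π)
    (S : Set (Set ℕ)) (hS : Cardinal.mk S ≤ Cardinal.aleph 1)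
    (hsplit : ∀ A : Set ℕ, A.Infinite → ∃ s ∈ S, (A ∩ s).Infinite ∧ (A \ s).Infinite)
    (G : Type) [CommGroup G] [τ : TopologicalSpace G] [IsTopologicalGroup G] [T2Space G]
    (htb : ∀ U ∈ 𝓝 (1 : G), ∃ F : Set G, F.Finite ∧ F * U = Set.univ)
    (hmin : ∀ t : TopologicalSpace G, τ ≤ t → @IsTopologicalGroup G t _ → @T2Space G t → t = τ)
    (hpr : Main.Pseudoradial G) : TopologicalSpace.MetrizableSpace G := by
  obtain ⟨K, _, _, _, _, _, ι, hι, hd⟩ := exists_completion G htb
  have hess := essential_of_minimal hmin ι hι hd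
  rcases em (Countable (K →ₜ* Circle)) with hc | hc
  · have := Dual.metrizableSpace_of_countable (K := K)
    exact hι.metrizableSpace
  · exfalso
    have : Uncountable (Additive (K →ₜ* Circle)) := ⟨hc⟩
    obtain ⟨Z, _, _, _, J, _, π, hπ⟩ := halg (Additive (K →ₜ* Circle))
    exact Main.main_aux π hpr ι hι hess hπ S hS hsplit

end Pool.Agent.Work.MP_7406cc_gt.Essential
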