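import Mathlib

/-!
# The power of a finite discrete space with exponent of cardinality aleph one is pseudoradial when
the splitting number exceeds aleph one, and uncountable powers are not metrizable
-/

set_option autoImplicit false

open Filter Topology Set

namespace Pool.Agent.Work.MP_7406cc_gt.Radial

/-- An infinite set of indices which almost decides the coordinates gives a convergent
subsequence. -/
lemma exists_subseq {F J : Type} [Finite F] [TopologicalSpace F] [DiscreteTopology F]
    (y : ℕ → J → F) (D : Set ℕ) (hD : D.Infinite)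
    (hdec : ∀ (j : J) (v : F), ¬ ((D ∩ {n | y n j = v}).Infinite ∧
      (D \ {n | y n j = v}).Infinite)) :
    ∃ (φ : ℕ → ℕ) (q : J → F), StrictMono φ ∧ Tendsto (fun n => y (φ n)) atTop (𝓝 q) := by
  have hv : ∀ j, ∃ v, (D \ {n | y n j = v}).Finite := by
    intro j
    by_contra hcon
    push Not at hcon
    have h1 : ∀ v, (D ∩ {n | y n j = v}).Finite := by
      intro v
      by_contra h2
      exact hdec j v ⟨h2, hcon v⟩
    apply hD
    have h2 : D = ⋃ v, D ∩ {n | y n j = v} := by
      ext n
      simp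
    rw [h2]
    exact Set.finite_iUnion h1
  choose q hq using hv
  refine ⟨Nat.nth (· ∈ D), q, Nat.nth_strictMono hD, ?_⟩
  rw [tendsto_pi_nhds]
  intro j
  apply tendsto_nhds_of_eventually_eq
  obtain ⟨N, hN⟩ := (hq j).bddAbove
  filter_upwards [eventually_gt_atTop N] with n hn
  by_contra h1
  have h2 : Nat.nth (· ∈ D) n ∈ D \ {n | y n j = q j} := ⟨Nat.nth_mem_of_infinite hD n, h1⟩
  have h3 : Nat.nth (· ∈ D) n ≤ N := hN h2
  have h4 : n ≤ Nat.nth (· ∈ D) n := (Nat.nth_strictMono hD).id_le n
  omega

theorem exists_pseudoradial (F : Type) [Finite F] [TopologicalSpace F] [DiscreteTopology F]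
    (h : ¬ ∃ S : Set (Set ℕ), Cardinal.mk S ≤ Cardinal.aleph 1 ∧
      ∀ A : Set ℕ, A.Infinite → ∃ s ∈ S, (A ∩ s).Infinite ∧ (A \ s).Infinite) :
    ∃ J : Type, Uncountable J ∧ ∀ A : Set (J → F), ¬ IsClosed A →
        ∃ (ι : Type) (_ : LinearOrder ι), WellFoundedLT ι ∧ Nonempty ι ∧
          ∃ (x : ι → (J → F)) (p : J → F), (∀ i, x i ∈ A) ∧ p ∉ A ∧
            Filter.Tendsto x Filter.atTop (nhds p) := by
  have hJc : Cardinal.mk (Cardinal.aleph 1).ord.ToType = Cardinal.aleph 1 :=
    Cardinal.mk_ord_toType _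
  have hunc : Uncountable (Cardinal.aleph 1).ord.ToType := by
    rw [← Cardinal.aleph0_lt_mk_iff, hJc]
    exact Cardinal.aleph0_lt_aleph_one
  refine ⟨(Cardinal.aleph 1).ord.ToType, hunc, fun A hA => ?_⟩
  by_cases hseq : ∃ (u : ℕ → ((Cardinal.aleph 1).ord.ToType → F)) (p : _ → F), (∀ n, u n ∈ A) ∧
      p ∉ A ∧ Tendsto u atTop (𝓝 p)
  · obtain ⟨u, p, h1, h2, h3⟩ := hseq
    exact ⟨ℕ, inferInstance, inferInstance, inferInstance, u, p, h1, h2, h3⟩
  · push Not at hseq
    obtain ⟨p, hp, hpA⟩ : ∃ p ∈ closure A, p ∉ A := by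
      by_contra hcon
      push Not at hcon
      exact hA (isClosed_of_closure_subset hcon)
    have hnb : ∀ s : Finset (Cardinal.aleph 1).ord.ToType, ∃ q ∈ A, ∀ j ∈ s, q j = p j := by
      intro s
      have h1 : {q : (Cardinal.aleph 1).ord.ToType → F | ∀ j ∈ s, q j = p j} ∈ 𝓝 p := by
        have : {q : (Cardinal.aleph 1).ord.ToType → F | ∀ j ∈ s, q j = p j} =
            (s : Set _).pi (fun j => {p j}) := by
          ext q; simp [Set.pi]
        rw [this]
        exact set_pi_mem_nhds s.finite_toSet (fun j _ => (isOpen_discrete _).mem_nhds rfl)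
      obtain ⟨q, hq1, hq2⟩ := mem_closure_iff_nhds.1 hp _ h1
      exact ⟨q, hq2, hq1⟩
    -- the points of the transfinite sequence
    have hx : ∀ a : (Cardinal.aleph 1).ord.ToType, ∃ q ∈ A, ∀ j < a, q j = p j := by
      intro a
      have hcount : (Iio a).Countable := by
        have h1 : Cardinal.mk (Iio a) < Cardinal.aleph 1 := by
          have h0 := Cardinal.mk_Iio_lt a (by simp)
          rwa [hJc] at h0
        rw [← Cardinal.le_aleph0_iff_set_countable]
        rw [← Order.lt_succ_iff, Cardinal.succ_aleph0]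
        exact h1
      obtain ⟨f, hf⟩ : ∃ f : ℕ → Set (Cardinal.aleph 1).ord.ToType, (∀ n, (f n).Finite) ∧
          (∀ j < a, ∃ n, ∀ m ≥ n, j ∈ f m) := by
        rcases (Iio a).eq_empty_or_nonempty with he | hne
        · refine ⟨fun _ => ∅, fun _ => Set.finite_empty, fun j hj => ?_⟩
          have : j ∈ Iio a := hj
          rw [he] at this
          exact absurd this (Set.notMem_empty j)
        · obtain ⟨g, hg⟩ := hcount.exists_eq_range hne
          refine ⟨fun n => g '' (Iic n), fun n => (Set.finite_Iic n).image g, fun j hj => ?_⟩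
          have : j ∈ Iio a := hj
          rw [hg] at this
          obtain ⟨n, rfl⟩ := this
          exact ⟨n, fun m hm => ⟨n, hm, rfl⟩⟩
      have hy : ∀ n, ∃ q ∈ A, ∀ j ∈ f n, q j = p j := by
        intro n
        obtain ⟨q, hq, hq2⟩ := hnb (hf.1 n).toFinset
        exact ⟨q, hq, fun j hj => hq2 j ((hf.1 n).mem_toFinset.2 hj)⟩
      choose y hyA hyp using hy
      -- the family is not splitting
      have hS : Cardinal.mk (range fun (x : (Cardinal.aleph 1).ord.ToType × F) =>
          {n | y n x.1 = x.2}) ≤ Cardinal.aleph 1 := by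
        refine Cardinal.mk_range_le.trans ?_
        rw [Cardinal.mk_prod, hJc]
        simp only [Cardinal.lift_id]
        refine (Cardinal.mul_le_max _ _).trans ?_
        refine max_le (max_le le_rfl ?_) Cardinal.aleph0_lt_aleph_one.le
        exact (Cardinal.lt_aleph0_of_finite F).le.trans Cardinal.aleph0_lt_aleph_one.le
      have h1 : ∃ D : Set ℕ, D.Infinite ∧ ∀ s ∈ (range fun (x : (Cardinal.aleph 1).ord.ToType × F) =>
          {n | y n x.1 = x.2}), ¬ ((D ∩ s).Infinite ∧ (D \ s).Infinite) := by
        by_contra hcon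
        push Not at hcon
        exact h ⟨_, hS, fun D hD => hcon D hD⟩
      obtain ⟨D, hD, hD2⟩ := h1
      obtain ⟨φ, q, hφ, hq⟩ := exists_subseq y D hD (fun j v => hD2 _ ⟨(j, v), rfl⟩)
      have hqA : q ∈ A := by
        by_contra hqA
        exact hseq (fun n => y (φ n)) q (fun n => hyA _) hqA hq
      refine ⟨q, hqA, fun j hj => ?_⟩
      obtain ⟨n, hn⟩ := hf.2 j hj
      have h2 : Tendsto (fun n => y (φ n) j) atTop (𝓝 (q j)) := (tendsto_pi_nhds.1 hq) j
      have h3 : Tendsto (fun n => y (φ n) j) atTop (𝓝 (p j)) := by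
        apply tendsto_nhds_of_eventually_eq
        filter_upwards [eventually_ge_atTop n] with m hm
        apply hyp
        exact hn _ (hm.trans (hφ.id_le m))
      exact tendsto_nhds_unique h2 h3
    choose x hxA hxp using hx
    have hno : NoMaxOrder (Cardinal.aleph 1).ord.ToType :=
      Cardinal.noMaxOrder (Cardinal.aleph0_le_aleph 1)
    have hne : Nonempty (Cardinal.aleph 1).ord.ToType := by
      by_contra hcon
      rw [not_nonempty_iff] at hcon
      exact not_countable (α := (Cardinal.aleph 1).ord.ToType) inferInstance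
    refine ⟨(Cardinal.aleph 1).ord.ToType, inferInstance, inferInstance, hne, x, p, hxA, hpA, ?_⟩
    rw [tendsto_pi_nhds]
    intro j
    apply tendsto_nhds_of_eventually_eq
    filter_upwards [eventually_gt_atTop j] with a ha
    exact hxp a j ha

theorem not_metrizable (F : Type) [TopologicalSpace F] [DiscreteTopology F] [Nontrivial F]
    (J : Type) [Uncountable J] : ¬ TopologicalSpace.MetrizableSpace (J → F) := by
  intro hmet
  have hfc : FirstCountableTopology (J → F) := inferInstance
  obtain ⟨v, w, hvw⟩ := exists_pair_ne F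
  let p : J → F := fun _ => v
  obtain ⟨U, hU⟩ := (𝓝 p).exists_antitone_basis
  have h1 : ∀ n, ∃ s : Finset J, ∀ q : J → F, (∀ j ∈ s, q j = v) → q ∈ U n := by
    intro n
    have h2 : U n ∈ 𝓝 p := hU.1.mem_of_mem trivial
    rw [nhds_pi, Filter.mem_pi] at h2
    obtain ⟨I, hI, t, ht, hsub⟩ := h2
    refine ⟨hI.toFinset, fun q hq => hsub ?_⟩
    intro j hj
    have h3 := hq j (hI.mem_toFinset.2 hj)
    rw [h3]
    exact mem_of_mem_nhds (ht j)
  choose s hs using h1
  have hc : (⋃ n, (s n : Set J)).Countable := Set.countable_iUnion fun n => (s n).countable_toSet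
  obtain ⟨j, hj⟩ : ∃ j, j ∉ ⋃ n, (s n : Set J) := by
    by_contra hcon
    push Not at hcon
    have h2 : (⋃ n, (s n : Set J)) = univ := Set.eq_univ_of_forall hcon
    rw [h2, Set.countable_univ_iff] at hc
    exact not_countable hc
  have h3 : {q : J → F | q j = v} ∈ 𝓝 p := by
    have h6 : {q : J → F | q j = v} = (fun q : J → F => q j) ⁻¹' {v} := rfl
    rw [h6]
    exact (continuous_apply j).continuousAt.preimage_mem_nhds
      ((isOpen_discrete {v}).mem_nhds rfl)
  obtain ⟨n, -, hn⟩ := hU.1.mem_iff.1 h3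
  classical
  have h4 : Function.update p j w ∈ U n := by
    apply hs
    intro i hi
    have hij : i ≠ j := by
      rintro rfl
      exact hj (Set.mem_iUnion.2 ⟨n, hi⟩)
    rw [Function.update_of_ne hij]
  have h5 : Function.update p j w j = v := hn h4
  rw [Function.update_self] at h5
  exact hvw h5.symm

end Pool.Agent.Work.MP_7406cc_gt.Radial
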